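import Pool.Agent.Helper42.PW.Goals1

/-!
# Project PW (MP_fc6b1e_nt): packet N_ALG, algebraic properties of the norm form
-/

set_option autoImplicit false

namespace Pool.Agent.Helper16.PW

open Pool.Agent.Helper42.PW

theorem nf_map (p : ℕ) (R R' : Type) [CommRing R] [CommRing R'] (f : R →+* R') (α : R)
    (z : ℕ → R) : f (nf p α z) = nf p (f α) fun j ↦ f (z j) := by
  unfold nf
  rw [RingHom.map_det]
  congr 1
  ext i j
  simp only [RingHom.mapMatrix_apply, Matrix.map_apply, Matrix.of_apply]
  split_ifs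
  · rfl
  · rw [map_mul]

theorem nf_const (p : ℕ) (R : Type) [CommRing R] (α c : R) :
    nf p α (fun j ↦ if j = 0 then c else 0) = c ^ p := by
  unfold nf
  have h : (Matrix.of fun i j : Fin p ↦
      if (j : ℕ) ≤ i then (if (i : ℕ) - j = 0 then c else 0)
      else α * (if p + (i : ℕ) - j = 0 then c else 0)) =
      Matrix.diagonal fun _ : Fin p => c := by
    ext i j
    rw [Matrix.of_apply, Matrix.diagonal_apply]
    have hi := i.2
    have hj := j.2
    by_cases h1 : (j : ℕ) ≤ i
    · rw [if_pos h1]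
      by_cases h2 : i = j
      · rw [if_pos h2, if_pos]
        rw [h2]; omega
      · rw [if_neg h2, if_neg]
        intro h3
        apply h2
        apply Fin.ext
        omega
    · rw [if_neg h1, if_neg (by omega), mul_zero, if_neg]
      intro h2
      rw [h2] at h1
      omega
  rw [h, Matrix.det_diagonal, Finset.prod_const, Finset.card_univ, Fintype.card_fin]

theorem nf_scale (p : ℕ) (F : Type) [Field F] (α v : F) (z : ℕ → F) :
    nf p (α * v ^ p) z = nf p α fun j ↦ z j * v ^ j := by
  by_cases hv : v = 0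
  · subst hv
    have e1 : (fun j ↦ z j * (0 : F) ^ j) = fun j ↦ if j = 0 then z 0 else 0 := by
      funext j
      by_cases hj : j = 0
      · rw [hj, pow_zero, mul_one, if_pos rfl]
      · rw [zero_pow hj, mul_zero, if_neg hj]
    rw [e1, nf_const]
    rcases Nat.eq_zero_or_pos p with hp | hp
    · subst hp
      unfold nf
      rw [pow_zero, Matrix.det_isEmpty, pow_zero]
    · rw [zero_pow hp.ne', mul_zero]
      unfold nf
      rw [Matrix.det_of_isLowerTriangular]
      · simp only [Matrix.of_apply, le_refl, if_true, Nat.sub_self]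
        rw [Finset.prod_const, Finset.card_univ, Fintype.card_fin]
      · intro i j hij
        have h1 : i < j := hij
        rw [Matrix.of_apply, if_neg (by
          have : (i : ℕ) < j := h1
          omega), zero_mul]
  · unfold nf
    have key : (Matrix.diagonal fun i : Fin p => v ^ (i : ℕ)) *
        (Matrix.of fun i j : Fin p ↦
          if (j : ℕ) ≤ i then z (i - j) else α * v ^ p * z (p + i - j)) =
        (Matrix.of fun i j : Fin p ↦
          if (j : ℕ) ≤ i then z (i - j) * v ^ ((i : ℕ) - j)
          else α * (z (p + i - j) * v ^ (p + (i : ℕ) - j))) *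
        (Matrix.diagonal fun i : Fin p => v ^ (i : ℕ)) := by
      ext i j
      rw [Matrix.diagonal_mul, Matrix.mul_diagonal, Matrix.of_apply, Matrix.of_apply]
      have hi := i.2
      have hj := j.2
      by_cases h1 : (j : ℕ) ≤ i
      · rw [if_pos h1, if_pos h1, mul_assoc, ← pow_add, Nat.sub_add_cancel h1, mul_comm]
      · rw [if_neg h1, if_neg h1]
        have e2 : v ^ (p + (i : ℕ) - j) * v ^ (j : ℕ) = v ^ p * v ^ (i : ℕ) := by
          rw [← pow_add, ← pow_add]
          congr 1
          omega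
        calc v ^ (i : ℕ) * (α * v ^ p * z (p + i - j))
            = α * z (p + i - j) * (v ^ p * v ^ (i : ℕ)) := by ring
          _ = α * (z (p + i - j) * v ^ (p + (i : ℕ) - j)) * v ^ (j : ℕ) := by
            rw [← e2]; ring
    have h2 := congrArg Matrix.det key
    rw [Matrix.det_mul, Matrix.det_mul, Matrix.det_diagonal, mul_comm] at h2
    have h3 : ∏ i : Fin p, v ^ (i : ℕ) ≠ 0 := Finset.prod_ne_zero_iff.2 fun i _ => pow_ne_zero _ hv
    exact mul_right_cancel₀ h3 h2

/-- The product of two polynomials modulo `X^p - α`. -/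
theorem conv_eval {R : Type} [CommRing R] {p : ℕ} (α b : R) (hb : b ^ p = α) (z z' : ℕ → R) :
    ∑ r ∈ Finset.range p, (∑ j ∈ Finset.range p,
      if j ≤ r then z j * z' (r - j) else α * (z j * z' (p + r - j))) * b ^ r =
    (∑ j ∈ Finset.range p, z j * b ^ j) * ∑ k ∈ Finset.range p, z' k * b ^ k := by
  have h1 : ∑ r ∈ Finset.range p, (∑ j ∈ Finset.range p,
      if j ≤ r then z j * z' (r - j) else α * (z j * z' (p + r - j))) * b ^ r =
      ∑ j ∈ Finset.range p, ∑ r ∈ Finset.range p,
        (if j ≤ r then z j * z' (r - j) else α * (z j * z' (p + r - j))) * b ^ r := by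
    rw [Finset.sum_comm]
    exact Finset.sum_congr rfl fun r _ => Finset.sum_mul _ _ _
  rw [h1, Finset.sum_mul]
  refine Finset.sum_congr rfl fun j hj => ?_
  rw [Finset.mem_range] at hj
  rw [Finset.mul_sum]
  symm
  refine Finset.sum_nbij' (fun k => if j + k < p then j + k else j + k - p)
    (fun r => if j ≤ r then r - j else p + r - j) ?_ ?_ ?_ ?_ ?_
  · intro k hk
    simp only [Finset.mem_range] at hk ⊢
    split_ifs <;> omega
  · intro r hr
    simp only [Finset.mem_range] at hr ⊢
    split_ifs <;> omega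
  · intro k hk
    simp only [Finset.mem_range] at hk ⊢
    split_ifs <;> omega
  · intro r hr
    simp only [Finset.mem_range] at hr ⊢
    split_ifs <;> omega
  · intro k hk
    simp only [Finset.mem_range] at hk ⊢
    by_cases h2 : j + k < p
    · rw [if_pos h2, if_pos (Nat.le_add_right j k), Nat.add_sub_cancel_left, pow_add]
      ring
    · rw [if_neg h2, if_neg (by omega)]
      have e1 : p + (j + k - p) - j = k := by omega
      have e2 : b ^ j * b ^ k = α * b ^ (j + k - p) := by
        rw [← hb, ← pow_add, ← pow_add]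
        congr 1
        omega
      rw [e1]
      calc z j * b ^ j * (z' k * b ^ k) = z j * z' k * (b ^ j * b ^ k) := by ring
        _ = α * (z j * z' k) * b ^ (j + k - p) := by rw [e2]; ring

/-- The substitution `X ↦ X^n` modulo `X^p - α`. -/
theorem subst_eval {R : Type} [CommRing R] {p : ℕ} (hp : 0 < p) (α b : R) (hb : b ^ p = α)
    (n : ℕ) (z : ℕ → R) :
    ∑ l ∈ Finset.range p, (∑ j ∈ Finset.range p,
      if (n * j) % p = l then z j * α ^ (n * j / p) else 0) * b ^ l =
    ∑ j ∈ Finset.range p, z j * b ^ (n * j) := by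
  have h1 : ∑ l ∈ Finset.range p, (∑ j ∈ Finset.range p,
      if (n * j) % p = l then z j * α ^ (n * j / p) else 0) * b ^ l =
      ∑ j ∈ Finset.range p, ∑ l ∈ Finset.range p,
        (if (n * j) % p = l then z j * α ^ (n * j / p) else 0) * b ^ l := by
    rw [Finset.sum_comm]
    exact Finset.sum_congr rfl fun r _ => Finset.sum_mul _ _ _
  rw [h1]
  refine Finset.sum_congr rfl fun j _ => ?_
  rw [Finset.sum_eq_single ((n * j) % p)]
  · rw [if_pos rfl, ← hb, ← pow_mul, mul_assoc, ← pow_add, Nat.div_add_mod]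
  · intro l _ hl
    rw [if_neg (Ne.symm hl), zero_mul]
  · intro h
    exact absurd (Finset.mem_range.2 (Nat.mod_lt _ hp)) h

/-- Multiplication by `n` permutes the exponents. -/
theorem prod_perm {Ω : Type} [Field Ω] {p n : ℕ} (hp : 0 < p) {ε : Ω} (hε : ε ^ p = 1)
    (hn : n.Coprime p) (g : Ω → Ω) :
    ∏ i ∈ Finset.range p, g (ε ^ (n * i)) = ∏ i ∈ Finset.range p, g (ε ^ i) := by
  have hinj : Set.InjOn (fun i => (n * i) % p) (Finset.range p : Set ℕ) := by
    intro i hi j hj hij
    rw [Finset.coe_range, Set.mem_Iio] at hi hj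
    have h1 : n * i ≡ n * j [MOD p] := hij
    have h2 : i ≡ j [MOD p] := Nat.ModEq.cancel_left_of_coprime (by
      rw [Nat.gcd_comm]; exact hn) h1
    have h3 : i % p = j % p := h2
    rwa [Nat.mod_eq_of_lt hi, Nat.mod_eq_of_lt hj] at h3
  have hmaps : Set.MapsTo (fun i => (n * i) % p) (Finset.range p : Set ℕ)
      (Finset.range p : Set ℕ) := by
    intro i _
    rw [Finset.coe_range, Set.mem_Iio]
    exact Nat.mod_lt _ hp
  refine Finset.prod_nbij (fun i => (n * i) % p) (fun i hi => hmaps hi) hinj
    (Finset.surjOn_of_injOn_of_card_le _ hmaps hinj le_rfl) ?_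
  intro i _
  have h4 : ε ^ (n * i) = ε ^ ((n * i) % p) := by
    conv_lhs => rw [← Nat.div_add_mod (n * i) p, pow_add, pow_mul, hε, one_pow, one_mul]
  rw [h4]

/-- **N_ALG.** -/
theorem n_alg (h1 : N_EVL) : N_ALG := by
  refine ⟨nf_map, nf_const, nf_scale, ?_, ?_⟩
  · intro p hp F _ _ α hα z z'
    have : NeZero (p : AlgebraicClosure F) := ⟨by
      rw [Nat.cast_ne_zero]; exact hp.out.ne_zero⟩
    obtain ⟨ε, hε⟩ := HasEnoughRootsOfUnity.exists_primitiveRoot (AlgebraicClosure F) p
    obtain ⟨β, hβ⟩ := IsAlgClosed.exists_pow_nat_eq (algebraMap F (AlgebraicClosure F) α)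
      hp.out.pos
    have hβ0 : β ≠ 0 := by
      rintro rfl
      rw [zero_pow hp.out.ne_zero] at hβ
      exact hα ((map_eq_zero _).1 hβ.symm)
    refine ⟨fun r => ∑ j ∈ Finset.range p,
      if j ≤ r then z j * z' (r - j) else α * (z j * z' (p + r - j)), ?_⟩
    apply (algebraMap F (AlgebraicClosure F)).injective
    rw [map_mul, nf_map, nf_map, nf_map, ← hβ, h1 p _ ε β hε hβ0, h1 p _ ε β hε hβ0,
      h1 p _ ε β hε hβ0, ← Finset.prod_mul_distrib]
    refine Finset.prod_congr rfl fun i _ => ?_
    have hb : (ε ^ i * β) ^ p = algebraMap F (AlgebraicClosure F) α := by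
      rw [mul_pow, ← pow_mul, mul_comm i p, pow_mul, hε.pow_eq_one, one_pow, one_mul, hβ]
    rw [← conv_eval _ _ hb]
    refine Finset.sum_congr rfl fun r _ => ?_
    congr 1
    rw [map_sum]
    refine Finset.sum_congr rfl fun j _ => ?_
    split_ifs
    · rw [map_mul]
    · rw [map_mul, map_mul]
  · intro p hp F _ _ α hα n hn z
    have : NeZero (p : AlgebraicClosure F) := ⟨by
      rw [Nat.cast_ne_zero]; exact hp.out.ne_zero⟩
    obtain ⟨ε, hε⟩ := HasEnoughRootsOfUnity.exists_primitiveRoot (AlgebraicClosure F) p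
    obtain ⟨β, hβ⟩ := IsAlgClosed.exists_pow_nat_eq (algebraMap F (AlgebraicClosure F) α)
      hp.out.pos
    have hβ0 : β ≠ 0 := by
      rintro rfl
      rw [zero_pow hp.out.ne_zero] at hβ
      exact hα ((map_eq_zero _).1 hβ.symm)
    refine ⟨fun l => ∑ j ∈ Finset.range p,
      if (n * j) % p = l then z j * α ^ (n * j / p) else 0, ?_⟩
    apply (algebraMap F (AlgebraicClosure F)).injective
    have e0 : (β ^ n) ^ p = (algebraMap F (AlgebraicClosure F) α) ^ n := by
      rw [← hβ, ← pow_mul, ← pow_mul, mul_comm]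
    rw [nf_map, nf_map, map_pow, ← e0, h1 p _ ε (β ^ n) hε (pow_ne_zero n hβ0), ← hβ,
      h1 p _ ε β hε hβ0]
    have e1 : ∀ i ∈ Finset.range p, ∑ l ∈ Finset.range p,
        algebraMap F (AlgebraicClosure F) (∑ j ∈ Finset.range p,
          if (n * j) % p = l then z j * α ^ (n * j / p) else 0) * (ε ^ i * β) ^ l =
        ∑ j ∈ Finset.range p, algebraMap F (AlgebraicClosure F) (z j) *
          (ε ^ (n * i) * β ^ n) ^ j := by
      intro i _
      have hb : (ε ^ i * β) ^ p = algebraMap F (AlgebraicClosure F) α := by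
        rw [mul_pow, ← pow_mul, mul_comm i p, pow_mul, hε.pow_eq_one, one_pow, one_mul, hβ]
      have e2 := subst_eval hp.out.pos _ _ hb n
        (fun j => algebraMap F (AlgebraicClosure F) (z j))
      have e3 : ∀ j, (ε ^ i * β) ^ (n * j) = (ε ^ (n * i) * β ^ n) ^ j := by
        intro j
        rw [pow_mul, mul_pow, ← pow_mul, mul_comm i n]
      simp only [e3] at e2
      rw [← e2]
      refine Finset.sum_congr rfl fun l _ => ?_
      congr 1
      rw [map_sum]
      refine Finset.sum_congr rfl fun j _ => ?_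
      split_ifs
      · rw [map_mul, map_pow]
      · rw [map_zero]
    rw [Finset.prod_congr rfl e1]
    exact (prod_perm hp.out.pos hε.pow_eq_one hn fun e =>
      ∑ j ∈ Finset.range p, algebraMap F (AlgebraicClosure F) (z j) * (e * β ^ n) ^ j).symm

end Pool.Agent.Helper16.PW
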